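import Pool.Agent.W14.US.Stm

/-! The conclusion `fin` of project US. -/

set_option autoImplicit false
open Complex MeasureTheory Topology
open scoped ContDiff

namespace Pool.Agent.W866.US
open Pool.Agent.W14.US

lemma continuous_co (b : Bool) : Continuous (co b) := by
  cases b
  · exact Complex.continuous_re.congr (fun z => by simp [co])
  · exact Complex.continuous_im.congr (fun z => by simp [co])

lemma exists_co_ne {z w : ℂ} (h : z ≠ w) : ∃ b : Bool, co b z ≠ co b w := by
  by_contra hc
  push Not at hc
  apply h
  apply Complex.ext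
  · simpa [co] using hc false
  · simpa [co] using hc true

lemma totDisc {P : Set ℂ} (hP : ∀ (b : Bool) (q : ℚ), ∀ z ∈ P, co b z ≠ (q : ℝ)) :
    IsTotallyDisconnected P := by
  intro t htP ht z hz w hw
  by_contra hne
  obtain ⟨b, hb⟩ := exists_co_ne hne
  have himg : IsPreconnected (co b '' t) := ht.image _ (continuous_co b).continuousOn
  have hoc : (co b '' t).OrdConnected := himg.ordConnected
  rcases lt_or_gt_of_ne hb with hlt | hlt
  · obtain ⟨q, hq1, hq2⟩ := exists_rat_btwn hlt
    have : (q : ℝ) ∈ co b '' t :=
      hoc.out ⟨z, hz, rfl⟩ ⟨w, hw, rfl⟩ ⟨hq1.le, hq2.le⟩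
    obtain ⟨v, hv, hvq⟩ := this
    exact hP b q v (htP hv) hvq
  · obtain ⟨q, hq1, hq2⟩ := exists_rat_btwn hlt
    have : (q : ℝ) ∈ co b '' t :=
      hoc.out ⟨w, hw, rfl⟩ ⟨z, hz, rfl⟩ ⟨hq1.le, hq2.le⟩
    obtain ⟨v, hv, hvq⟩ := this
    exact hP b q v (htP hv) hvq

theorem fin : S_F → S_MAIN := by
  rintro ⟨F, M, hM, hL, hq, h0, h2⟩
  have hFc : Continuous F := by
    have : LipschitzWith (Real.toNNReal M) F := by
      apply LipschitzWith.of_dist_le_mul
      intro x y
      rw [dist_eq_norm, dist_eq_norm, Real.coe_toNNReal _ hM.le]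
      exact hL x y
    exact this.continuous
  set f : ℂ → ℂ := fun z => (2 * M : ℝ) * z + F z with hf
  set P : Set ℂ := {z | ¬ AnalyticAt ℂ F z} with hPdef
  have hfc : Continuous f := by
    rw [hf]; exact (continuous_const.mul continuous_id).add hFc
  -- antilipschitz
  have hanti : AntilipschitzWith (Real.toNNReal (1 / M)) f := by
    apply AntilipschitzWith.of_le_mul_dist
    intro x y
    rw [dist_eq_norm, dist_eq_norm, Real.coe_toNNReal _ (by positivity)]
    have h1 : f x - f y = (2 * M : ℝ) * (x - y) + (F x - F y) := by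
      simp only [hf]; ring
    have h3 : 2 * M * ‖x - y‖ ≤ ‖f x - f y‖ + ‖F x - F y‖ := by
      have : ((2 * M : ℝ) : ℂ) * (x - y) = (f x - f y) - (F x - F y) := by rw [h1]; ring
      calc 2 * M * ‖x - y‖ = ‖((2 * M : ℝ) : ℂ) * (x - y)‖ := by
            rw [norm_mul, Complex.norm_real, Real.norm_of_nonneg (by positivity)]
        _ = ‖(f x - f y) - (F x - F y)‖ := by rw [this]
        _ ≤ _ := norm_sub_le _ _
    have h4 := hL x y
    have h5 : M * ‖x - y‖ ≤ ‖f x - f y‖ := by nlinarith
    rw [one_div, ← div_eq_inv_mul, le_div_iff₀ hM]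
    linarith
  have hemb : IsEmbedding f := by
    have huc : IsUniformInducing f := by
      apply hanti.isUniformInducing
      have : LipschitzWith (Real.toNNReal (3 * M)) f := by
        apply LipschitzWith.of_dist_le_mul
        intro x y
        rw [dist_eq_norm, dist_eq_norm, Real.coe_toNNReal _ (by positivity)]
        have h1 : f x - f y = (2 * M : ℝ) * (x - y) + (F x - F y) := by
          simp only [hf]; ring
        rw [h1]
        refine (norm_add_le _ _).trans ?_
        rw [norm_mul, Complex.norm_real, Real.norm_of_nonneg (by positivity)]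
        have := hL x y
        linarith
      exact this.uniformContinuous
    exact ⟨huc.isInducing, hanti.injective⟩
  -- no point of P on the rational lines
  have hPq : ∀ (b : Bool) (q : ℚ), ∀ z ∈ P, co b z ≠ (q : ℝ) := by
    intro b q z hz hzq
    obtain ⟨s, hs, hd⟩ := hq b q
    apply hz
    have hopen : IsOpen {z | |co b z - q| < s} := by
      apply isOpen_lt _ continuous_const
      exact ((continuous_co b).sub continuous_const).abs
    exact hd.analyticAt (hopen.mem_nhds (by simp [hzq, hs]))
  have hPtd : IsTotallyDisconnected P := totDisc hPq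
  have hPcl : IsClosed P := by
    have := isOpen_analyticAt ℂ F
    rw [← isOpen_compl_iff]
    convert this using 1
    ext z; simp [hPdef]
  have hPne : P.Nonempty := by
    by_contra hemp
    rw [Set.not_nonempty_iff_eq_empty] at hemp
    have hdiff : Differentiable ℂ F := by
      intro z
      have : z ∉ P := by rw [hemp]; simp
      have : AnalyticAt ℂ F z := by
        by_contra hc; exact this hc
      exact this.differentiableAt
    have hb : Bornology.IsBounded (Set.range F) := by
      rw [isBounded_iff_forall_norm_le]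
      refine ⟨‖F 0‖ + 2 * M + 1 / 4, ?_⟩
      rintro _ ⟨z, rfl⟩
      rcases le_or_gt 2 ‖z‖ with hz | hz
      · have := h2 z hz
        have : 0 ≤ ‖F 0‖ := norm_nonneg _
        nlinarith [h2 z hz]
      · have h6 := hL z 0
        have h7 : ‖F z‖ ≤ ‖F z - F 0‖ + ‖F 0‖ := by
          simpa using norm_add_le (F z - F 0) (F 0)
        rw [sub_zero] at h6
        have h8 : M * ‖z‖ ≤ M * 2 := by
          apply mul_le_mul_of_nonneg_left hz.le hM.le
        linarith
    have heq := hdiff.apply_eq_apply_of_bounded hb 0 2
    have h9 := h2 2 (by simp)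
    rw [← heq] at h9
    linarith
  have hPre : Preperfect P := by
    intro z hz
    rw [accPt_iff_nhds]
    by_contra hc
    push Not at hc
    obtain ⟨U, hU, hUz⟩ := hc
    apply hz
    apply Complex.analyticAt_of_differentiable_on_punctured_nhds_of_continuousAt _ hFc.continuousAt
    have : ∀ᶠ w in 𝓝[≠] z, w ∈ U := nhdsWithin_le_nhds hU
    filter_upwards [this, self_mem_nhdsWithin] with w hw hwz
    have hwP : w ∉ P := fun hwP => hwz (hUz w ⟨hw, hwP⟩)
    have : AnalyticAt ℂ F w := by
      by_contra hc; exact hwP hc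
    exact this.differentiableAt
  have hfa : ∀ z, AnalyticAt ℂ f z ↔ AnalyticAt ℂ F z := by
    intro z
    have hlin : AnalyticAt ℂ (fun z : ℂ => ((2 * M : ℝ) : ℂ) * z) z :=
      analyticAt_const.mul analyticAt_id
    constructor
    · intro h
      have h10 := h.sub hlin
      have : (f - fun z : ℂ => ((2 * M : ℝ) : ℂ) * z) = F := by
        funext w
        simp [hf]
      rwa [this] at h10
    · intro h
      exact hlin.add h
  refine ⟨Set.univ, P, f, isOpen_univ, isConnected_univ, Set.subset_univ _, hPne,
    ⟨hPcl, hPre⟩, hPtd, hfc.continuousOn, ?_, ?_, ?_⟩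
  · intro z hz
    have hz' : AnalyticAt ℂ F z := by
      by_contra hc; exact hz.2 hc
    exact ((hfa z).2 hz').differentiableAt.differentiableWithinAt
  · intro p hp hpa
    exact hp ((hfa p).1 hpa)
  · exact hemb.isTotallyDisconnected_image.2 hPtd

end Pool.Agent.W866.US
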